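import Pool.Agent.MP_8d06cc_nt.H9.BrelB
import Pool.Agent.MP_8d06cc_nt.AB.Spec

/-! Block BREL: a certificate gives a linear relation between the derivatives. -/

set_option autoImplicit false

namespace Pool.Agent.MP_8d06cc_nt.AB

open Polynomial Finset Lagrange
open DA (WW)

noncomputable section

namespace Brx

theorem euler {e : Fin 8 → ℂ} (he : Function.Injective e) {r : ℂ[X]} (hr : r.natDegree ≤ 4)
    (j : Fin 3) : ∑ i, r.eval (e i) * e i ^ (j : ℕ) / ∏ i' ∈ univ.erase i, (e i - e i') = 0 := by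
  have hd : (r * X ^ (j : ℕ)).natDegree ≤ 6 := by
    refine (natDegree_mul_le_of_le hr (natDegree_X_pow_le _)).trans ?_
    omega
  have h := coeff_eq_sum (s := univ) he.injOn (P := r * X ^ (j : ℕ))
    (degree_le_natDegree.trans_lt (by
      rw [card_univ, Fintype.card_fin]
      exact_mod_cast hd.trans_lt (by norm_num)))
  rw [coeff_eq_zero_of_natDegree_lt (hd.trans_lt (by simp))] at h
  simpa only [eval_mul, eval_pow, eval_X] using h.symm

theorem lagr {e : Fin 8 → ℂ} (he : Function.Injective e) {x : ℂ} (hx : ∀ i, x ≠ e i) (j : Fin 3) :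
    x ^ (j : ℕ) = (fz e).eval x *
      ∑ i, (x - e i)⁻¹ * (e i ^ (j : ℕ) / ∏ i' ∈ univ.erase i, (e i - e i')) := by
  have h := eq_interpolate (s := univ) he.injOn (f := (X : ℂ[X]) ^ (j : ℕ)) (by
    rw [degree_X_pow, card_univ, Fintype.card_fin]
    exact_mod_cast j.2.trans (by norm_num))
  have h2 := congrArg (eval x) h
  rw [eval_interpolate_not_at_node _ fun i _ => hx i, eval_pow, eval_X] at h2
  rw [h2]
  refine congrArg₂ _ rfl (sum_congr rfl fun i _ => ?_)
  rw [nodalWeight, prod_inv_distrib, eval_pow, eval_X]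
  ring

theorem qv_cont (q : Fin 3 → ℂ) : Continuous (qv q) := by
  unfold qv
  fun_prop

theorem lam_sum {f : ℂ[X]} {Γ : Set ℂ} {Λ : (ℂ → ℂ) → Fin 3 → ℂ} (h : Proj f Γ Λ) {ι : Type}
    (ρ : ι → ℂ → ℂ) (hρ : ∀ p, ContinuousOn (ρ p) Γ) (s : Finset ι) :
    Λ (fun t => ∑ p ∈ s, ρ p t) = ∑ p ∈ s, Λ (ρ p) := by
  classical
  induction s using Finset.induction_on with
  | empty =>
    rw [sum_empty, ← h.quad 0]
    exact h.congr _ _ fun t _ => by simp [qv]
  | insert p s hp ih =>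
    rw [sum_insert hp, ← ih, ← h.add _ _ (hρ p) (continuousOn_finsetSum _ fun q _ => hρ q)]
    exact h.congr _ _ fun t _ => sum_insert hp

theorem lam_int {f : ℂ[X]} {Γ : Set ℂ} {Λ : (ℂ → ℂ) → Fin 3 → ℂ} (h : Proj f Γ Λ) (n : ℤ)
    {ρ : ℂ → ℂ} (hρ : ContinuousOn ρ Γ) : Λ (fun t => n * ρ t) = (n : ℂ) • Λ ρ := by
  simpa only [Complex.ofReal_intCast] using h.smul (n : ℝ) ρ hρ

variable {ι : Type} [Fintype ι]

/-- the quadratic part is determined by the projection -/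
theorem lam_q {f : ℂ[X]} {Γ : Set ℂ} {Λ : (ℂ → ℂ) → Fin 3 → ℂ} (h : Proj f Γ Λ) {x y : ι → ℂ}
    {n : ι → ℤ} {ν : ℤ} {q : Fin 3 → ℂ} (hx : ∀ p, x p ∉ Γ)
    (h0 : Λ (fun t => ∑ p, n p * (y p / (t - x p)) + (ν * t ^ 3 + qv q t)) = 0) (t : ℂ) :
    qv q t = -(∑ p, n p * qv (Λ fun s => y p / (s - x p)) t + ν * qv (Λ fun s => s ^ 3) t) := by
  have c1 : ∀ p, ContinuousOn (fun t => y p / (t - x p)) Γ := fun p =>
    continuousOn_const.div (by fun_prop) fun t ht h => hx p (sub_eq_zero.1 h ▸ ht)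
  have c2 : ∀ p, ContinuousOn (fun t => (n p : ℂ) * (y p / (t - x p))) Γ := fun p =>
    continuousOn_const.mul (c1 p)
  have c3 : ContinuousOn (fun t : ℂ => (ν : ℂ) * t ^ 3) Γ := by fun_prop
  have c4 : ContinuousOn (fun t : ℂ => (ν : ℂ) * t ^ 3 + qv q t) Γ :=
    c3.add (qv_cont q).continuousOn
  rw [h.add _ _ (continuousOn_finsetSum _ fun p _ => c2 p) c4,
    h.add _ _ c3 (qv_cont q).continuousOn, lam_sum h _ c2, lam_int h ν (by fun_prop), h.quad,
    sum_congr rfl fun p _ => lam_int h (n p) (c1 p)] at h0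
  have e : ∀ j, q j = -(∑ p, n p * Λ (fun s => y p / (s - x p)) j + ν * Λ (fun s => s ^ 3) j) := by
    intro j
    have := congrFun h0 j
    simp only [Pi.add_apply, Finset.sum_apply, Pi.smul_apply, smul_eq_mul, Pi.zero_apply] at this
    linear_combination this
  simp only [qv, e, mul_sum, neg_mul, add_mul, sum_mul, sum_neg_distrib, sum_add_distrib,
    mul_assoc]
  rw [sum_comm]

/-- the final computation -/
theorem fin {e ev : Fin 8 → ℂ} {x y xv : ι → ℂ} {n : ι → ℤ} {ν : ℤ} {Λ : (ℂ → ℂ) → Fin 3 → ℂ}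
    {r : ℂ[X]} (he : Function.Injective e) (hy : ∀ p, y p ≠ 0)
    (hx : ∀ p i, x p ≠ e i) (hf : ∀ p, y p ^ 2 = (fz e).eval (x p)) (hr : r.natDegree ≤ 4)
    (h : ∀ i, -ev i * (∑ p, n p * (y p / (e i - x p) - qv (Λ fun s => y p / (s - x p)) (e i)) +
      ν * (e i ^ 3 - qv (Λ fun s => s ^ 3) (e i))) =
        r.eval (e i) + ∑ p, n p * y p * -xv p / (e i - x p)) (j : Fin 3) :
    ∑ p, (n p : ℂ) * Bt Λ e ev (x p) (y p) (xv p) j + (ν : ℂ) * BtI Λ e ev j = 0 := by
  have h1 := euler he hr j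
  have h2 : ∀ p, xv p * x p ^ (j : ℕ) / y p = ∑ i, y p * -xv p / (e i - x p) *
      (e i ^ (j : ℕ) / ∏ i' ∈ univ.erase i, (e i - e i')) := by
    intro p
    have := hy p
    rw [lagr he (hx p) j, ← hf p, mul_sum, mul_sum, sum_div]
    refine sum_congr rfl fun i _ => ?_
    have h3 := sub_ne_zero.2 (hx p i)
    have h4 := sub_ne_zero.2 (hx p i).symm
    generalize (e i ^ (j : ℕ) / ∏ i' ∈ univ.erase i, (e i - e i')) = z
    field_simp
    ring
  simp only [Bt, BtI, Sg, h2, mul_add, mul_sum, sum_add_distrib]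
  rw [sum_comm, sum_comm (s := (univ : Finset ι)), ← sum_add_distrib, ← sum_add_distrib,
    ← neg_zero, ← h1, ← sum_neg_distrib]
  refine sum_congr rfl fun i _ => ?_
  have h5 := h i
  generalize (∏ i' ∈ univ.erase i, (e i - e i')) = F
  have e1 : ∑ p, (n p : ℂ) * (y p * -xv p / (e i - x p) * (e i ^ (j : ℕ) / F)) =
      (∑ p, n p * y p * -xv p / (e i - x p)) * (e i ^ (j : ℕ) / F) := by
    rw [sum_mul]
    exact sum_congr rfl fun p _ => by ring
  have e2 : ∑ p, (n p : ℂ) * ((y p / (e i - x p) - qv (Λ fun s => y p / (s - x p)) (e i)) *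
      ev i * e i ^ (j : ℕ) / F) = (∑ p, n p * (y p / (e i - x p) -
        qv (Λ fun s => y p / (s - x p)) (e i))) * ev i * (e i ^ (j : ℕ) / F) := by
    rw [sum_mul, sum_mul]
    exact sum_congr rfl fun p _ => by ring
  rw [e1, e2]
  linear_combination -(e i ^ (j : ℕ) / F) * h5

theorem cubic {r : ℂ[X]} (hr : r.natDegree ≤ 3) (t : ℂ) :
    r.eval t = r.coeff 3 * t ^ 3 + qv (fun j => r.coeff j) t := by
  rw [eval_eq_sum_range' (Nat.lt_succ_of_le hr), qv]
  simp only [sum_range_succ, Fin.sum_univ_three, range_zero, sum_empty, Fin.val_zero, Fin.val_one,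
    Fin.val_two]
  ring

theorem deg_B {R : Type} [CommRing R] {B : R[X]} {M : ℕ}
    (h : B.degree < ((M + 4 - 3 : ℕ) : WithBot ℕ)) : B.natDegree ≤ M := by
  rcases eq_or_ne B 0 with rfl | h0
  · simp
  have := (natDegree_lt_iff_degree_lt h0).2 h
  omega

end Brx

open Brx in
theorem brel : StmtBREL := by
  classical
  intro R ι _ _ J e x y n ν Γ Λ hp hcert hΛ hΓ j
  obtain ⟨A, B, M, c, hc, hu, hN, hA, hB, hpos, hneg, hcase⟩ := hcert
  have hc0 : J.ev c ≠ 0 := (hu.map J.ev).ne_zero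
  have hA1 : A.natDegree ≤ M := natDegree_le_of_degree_le hA
  obtain ⟨r, hr1, hr2⟩ := core (der_DD J.ev) hp hc hu hN hpos hneg (u := fun _ => 1) (κ := 0)
    (fun p => by simp) (by simp)
  obtain ⟨s, hs1, hs2⟩ := core (dP_DD J) hp hc hu hN hpos hneg (u := fun p => -J.dt (x p))
    (κ := J.dt c / J.ev c) (fun p => dP_lin J _) (by rw [dP_C, mul_div_cancel₀ _ hc0])
  have hf : ((fz e).map J.ev).natDegree ≤ 8 := natDegree_map_le.trans (fz_deg e)
  have hdeg : (r.natDegree ≤ 3 ∧ r.coeff 3 = ν) ∧ s.natDegree ≤ 4 := by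
    rcases hcase with ⟨hν, hsum⟩ | ⟨h4, hb, σ, -, hσ, hν⟩
    · have h12 : r.natDegree ≤ 2 ∧ s.natDegree ≤ 4 := by
        rcases lt_or_ge M 4 with hM | hM
        · have hB0 : B = 0 := by
            rw [show M - 3 = 0 by omega] at hB
            exact degree_eq_bot.1 (Nat.WithBot.lt_zero_iff.1 hB)
          have hd0 : dP J 0 = 0 := by simp [dP]
          subst hB0
          exact ⟨deg1 hc0 hr1 hsum (by simp), deg1 hc0 hs1 hsum (by simp [hd0])⟩
        · obtain ⟨M, rfl⟩ := Nat.exists_eq_add_of_le' hM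
          have hB1 := deg_B hB
          refine ⟨deg1 hc0 hr1 hsum (W_deg' hf (natDegree_map_le.trans hA1)
            (natDegree_map_le.trans hB1)), deg1 hc0 hs1 hsum ((W_deg hf (dP_deg J (fz_deg e))
              (natDegree_map_le.trans hA1) (dP_deg J hA1) (natDegree_map_le.trans hB1)
              (dP_deg J hB1)).trans (by omega))⟩
      refine ⟨⟨h12.1.trans (by norm_num), ?_⟩, h12.2⟩
      rw [hν, coeff_eq_zero_of_natDegree_lt (h12.1.trans_lt (by norm_num)), Int.cast_zero]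
    · obtain ⟨M, rfl⟩ := Nat.exists_eq_add_of_le' h4
      have hB1 := deg_B hB
      rw [Nat.add_sub_cancel] at hb hσ
      have hb0 : (B.map J.ev).coeff M ≠ 0 := by
        rw [coeff_map]
        exact (hb.map J.ev).ne_zero
      obtain ⟨h3, h5⟩ := deg3 hr2 (natDegree_map_le.trans hA1) (natDegree_map_le.trans hB1) hb0
      refine ⟨⟨h3, mul_left_cancel₀ hb0 ?_⟩, deg2 hs2 (natDegree_map_le.trans hA1) (dP_deg J hA1)
        (natDegree_map_le.trans hB1) hb0⟩
      have e1 : ∀ p, (((n p).natAbs : ℕ) : ℂ) * 1 = ((|n p| : ℤ) : ℂ) := fun p => by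
        rw [mul_one, ← Int.cast_natCast, Int.natCast_natAbs]
      rw [h5, hν, coeff_map, coeff_map, hσ, map_mul, map_intCast, sum_congr rfl fun p _ => e1 p,
        Int.cast_mul, Int.cast_sub, Int.cast_mul, Int.cast_sum, Int.cast_natCast, Int.cast_ofNat]
      ring
  obtain ⟨⟨hr3, hν⟩, hs4⟩ := hdeg
  have he := pts_inj J.ev hp.de
  have hy : ∀ p, J.ev (y p) ≠ 0 := fun p => ((hp.uy p).map J.ev).ne_zero
  have hyf : ∀ p, J.ev (y p) ^ 2 = (fz fun i => J.ev (e i)).eval (J.ev (x p)) := fun p => by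
    rw [← fz_map, eval_map_apply, ← hp.eqn, map_pow]
  have hroot : ∀ i, (fz fun i => J.ev (e i)).eval (J.ev (e i)) = 0 := fun i =>
    eval_nodal_at_node (v := fun i => J.ev (e i)) (mem_univ i)
  have hxe : ∀ p i, J.ev (x p) ≠ J.ev (e i) := fun p i h =>
    pow_ne_zero 2 (hy p) (by rw [hyf, h, hroot])
  have hρ : ∀ t, (∀ p, t ≠ J.ev (x p)) → _ = ∑ p, n p * (J.ev (y p) / (t - J.ev (x p))) +
      (ν * t ^ 3 + qv (fun j => r.coeff j) t) := fun t ht => (ratio hc0 hr1 ht).trans (by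
    rw [cubic hr3, hν, add_comm]
    exact congrArg₂ _ (sum_congr rfl fun p _ => by ring) rfl)
  have hΓ' : ∀ t ∈ Γ, ∀ p, t ≠ J.ev (x p) := fun t ht p h => hΓ p (h ▸ ht)
  have h0 := hΛ.pell (A.map J.ev) (B.map J.ev) fun t ht => by
    rw [← fz_map, norm_map J.ev hN]
    exact NN_eval hc0 n (hΓ' t ht)
  rw [← fz_map, norm_map J.ev hN] at h0
  have hq := lam_q hΛ hΓ ((hΛ.congr _ _ fun t ht => (hρ t (hΓ' t ht)).symm).trans h0)
  refine fin he hy hxe hyf hs4 (fun i => ?_) j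
  have h1 := hρ _ fun p => (hxe p i).symm
  have h2 := ratio hc0 hs1 fun p => (hxe p i).symm
  have h3 := fz_der (der_DD J.ev) e i (u := 1) (by simp)
  have h4 := fz_der (dP_DD J) e i (dP_lin J _)
  have h5 : ((fz e).map J.ev).eval (J.ev (e i)) = 0 := by rw [fz_map, hroot]
  simp only [eval_add, eval_mul, h3, h4, h5, mul_zero, zero_mul, zero_add] at h1 h2
  rw [hq] at h1
  simp only [mul_sub, sum_sub_distrib]
  rw [← h2]
  linear_combination J.dt (e i) * h1

end

end Pool.Agent.MP_8d06cc_nt.AB
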