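import Pool.Agent.MP_8d06cc_nt.AB.Spec

/-! Block EST: uniform bounds for the derivatives of the Betti coordinates. -/

set_option autoImplicit false

namespace Pool.Agent.MP_8d06cc_nt.AB

open Polynomial Finset

namespace Estx

/-- The roots are separated and bounded; the projection is bounded. -/
structure Ok (d E : ℝ) (e : Fin 8 → ℂ) (Γ : Set ℂ) (Λ : (ℂ → ℂ) → Fin 3 → ℂ) : Prop where
  d0 : 0 < d
  E1 : 1 ≤ E
  sep : ∀ i i', i ≠ i' → d ≤ ‖e i - e i'‖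
  bd : ∀ i, ‖e i‖ ≤ E
  pr : Proj (fz e) Γ Λ
  rad : ∀ x ∈ Γ, ‖x‖ ≤ E
  bdd : ∀ ρ (M : ℝ), ContinuousOn ρ Γ → 0 ≤ M → (∀ x ∈ Γ, ‖ρ x‖ ≤ M) → ‖Λ ρ‖ ≤ E * M

/-- The weights. -/
noncomputable def cw (e : Fin 8 → ℂ) (j : Fin 3) (i : Fin 8) : ℂ :=
  e i ^ (j : ℕ) / ∏ i' ∈ univ.erase i, (e i - e i')

variable {d E : ℝ} {e : Fin 8 → ℂ} {Γ : Set ℂ} {Λ : (ℂ → ℂ) → Fin 3 → ℂ}

theorem pw_le {t : ℂ} {E : ℝ} (h1 : 1 ≤ E) (ht : ‖t‖ ≤ E) (j : Fin 3) :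
    ‖t ^ (j : ℕ)‖ ≤ E ^ 2 := by
  rw [norm_pow]
  exact (pow_le_pow_left₀ (norm_nonneg _) ht _).trans
    (pow_le_pow_right₀ h1 (Nat.lt_succ_iff.1 j.2))

theorem cw_le (h : Ok d E e Γ Λ) (j : Fin 3) (i : Fin 8) : ‖cw e j i‖ ≤ E ^ 2 / d ^ 7 := by
  rw [cw, norm_div, norm_prod]
  have h1 : d ^ 7 ≤ ∏ i' ∈ univ.erase i, ‖e i - e i'‖ := by
    have := prod_le_prod (s := univ.erase i) (f := fun _ => d) (g := fun i' => ‖e i - e i'‖)
      (fun _ _ => h.d0.le) fun i' hi' => h.sep _ _ (ne_of_mem_erase hi').symm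
    simpa using this
  exact div_le_div₀ (sq_nonneg _) (pw_le h.E1 (h.bd i) j) (pow_pos h.d0 7) h1

theorem sg_eq (ev : Fin 8 → ℂ) (g : ℂ → ℂ) (j : Fin 3) :
    Sg e ev g j = ∑ i, g (e i) * ev i * cw e j i :=
  sum_congr rfl fun _ _ => mul_div_assoc _ _ _

theorem sum8 {f : Fin 8 → ℂ} {M : ℝ} (h : ∀ i, ‖f i‖ ≤ M) : ‖∑ i, f i‖ ≤ 8 * M :=
  (norm_sum_le _ _).trans ((sum_le_sum fun i _ => h i).trans (by simp))

theorem sg_le (h : Ok d E e Γ Λ) (ev : Fin 8 → ℂ) {g : ℂ → ℂ} {G : ℝ} (hg : ∀ i, ‖g (e i)‖ ≤ G)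
    (j : Fin 3) : ‖Sg e ev g j‖ ≤ 8 * G * (E ^ 2 / d ^ 7) * ‖ev‖ := by
  rw [sg_eq]
  have hG : 0 ≤ G := (norm_nonneg _).trans (hg 0)
  refine (sum8 (M := G * ‖ev‖ * (E ^ 2 / d ^ 7)) fun i => ?_).trans (le_of_eq (by ring))
  rw [norm_mul, norm_mul]
  exact mul_le_mul (mul_le_mul (hg i) (norm_le_pi_norm ev i) (norm_nonneg _) hG) (cw_le h j i)
    (norm_nonneg _) (by positivity)

theorem qv_le {t : ℂ} (h1 : 1 ≤ E) (ht : ‖t‖ ≤ E) {q : Fin 3 → ℂ} {M : ℝ} (hq : ‖q‖ ≤ M) :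
    ‖qv q t‖ ≤ 3 * (M * E ^ 2) := by
  refine (norm_sum_le _ _).trans ((sum_le_sum (g := fun _ => M * E ^ 2) fun j _ => ?_).trans
    (by simp))
  rw [norm_mul]
  exact mul_le_mul ((norm_le_pi_norm q j).trans hq) (pw_le h1 ht j) (norm_nonneg _)
    ((norm_nonneg _).trans hq)

theorem red_le (h : Ok d E e Γ Λ) {ρ : ℂ → ℂ} {M : ℝ} (hc : ContinuousOn ρ Γ)
    (hρ : ∀ t, ‖t‖ ≤ E → ‖ρ t‖ ≤ M) (i : Fin 8) :
    ‖ρ (e i) - qv (Λ ρ) (e i)‖ ≤ M + 3 * (E * M * E ^ 2) :=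
  (norm_sub_le _ _).trans (add_le_add (hρ _ (h.bd i)) (qv_le h.E1 (h.bd i)
    (h.bdd ρ M hc ((norm_nonneg _).trans (hρ _ (h.bd i))) fun x hx => hρ x (h.rad x hx))))

theorem btI (h : Ok d E e Γ Λ) (ev : Fin 8 → ℂ) (j : Fin 3) :
    ‖BtI Λ e ev j‖ ≤ 8 * (E ^ 3 + 3 * (E * E ^ 3 * E ^ 2)) * (E ^ 2 / d ^ 7) * ‖ev‖ :=
  sg_le h ev (red_le h (ρ := fun t => t ^ 3) (by fun_prop) fun t ht => by
    rw [norm_pow]
    exact pow_le_pow_left₀ (norm_nonneg _) ht 3) j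

theorem ysq {x y : ℂ} (hy : y ^ 2 = (fz e).eval x) : y ^ 2 = ∏ i, (x - e i) := by
  rw [hy, fz, eval_prod]
  simp

theorem y_le {x y : ℂ} (hy : y ^ 2 = (fz e).eval x) {a : ℝ} (h : ∀ i, ‖x - e i‖ ≤ a) :
    ‖y‖ ≤ a ^ 4 := by
  have ha : 0 ≤ a := (norm_nonneg _).trans (h 0)
  refine (sq_le_sq₀ (norm_nonneg _) (by positivity)).1 ?_
  rw [← norm_pow, ysq hy, norm_prod, ← pow_mul]
  simpa using prod_le_prod (s := univ) (f := fun i => ‖x - e i‖) (g := fun _ => a)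
    (fun _ _ => norm_nonneg _) fun i _ => h i

theorem le_y {x y : ℂ} (hy : y ^ 2 = (fz e).eval x) {a : ℝ} (ha : 0 ≤ a)
    (h : ∀ i, a ≤ ‖x - e i‖) : a ^ 4 ≤ ‖y‖ := by
  refine (sq_le_sq₀ (by positivity) (norm_nonneg _)).1 ?_
  rw [← norm_pow, ysq hy, norm_prod, ← pow_mul]
  simpa using prod_le_prod (s := univ) (g := fun i => ‖x - e i‖) (f := fun _ => a)
    (fun _ _ => ha) fun i _ => h i

theorem far (h : Ok d E e Γ Λ) (ev : Fin 8 → ℂ) {x y : ℂ} (xv : ℂ) (hy : y ^ 2 = (fz e).eval x)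
    (hx : 2 * E < ‖x‖) (j : Fin 3) : ‖Bt Λ e ev x y xv j‖ ≤ 32 * (‖xv‖ / (1 + ‖x‖ ^ 2)) +
      8 * (32 * E ^ 3 + 3 * (E * (32 * E ^ 3) * E ^ 2)) * (E ^ 2 / d ^ 7) * ‖ev‖ := by
  have hE := h.E1
  have hx1 : 1 ≤ ‖x‖ := by linarith
  have hx0 : 0 < ‖x‖ := by linarith
  have hx' : x ≠ 0 := norm_pos_iff.1 hx0
  have h1 : ∀ t, ‖t‖ ≤ E → ‖x‖ / 2 ≤ ‖x - t‖ := fun t ht => by
    have := norm_sub_norm_le x t
    linarith
  have h2 : ‖y‖ ≤ (2 * ‖x‖) ^ 4 := y_le hy fun i => by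
    have := norm_sub_le x (e i)
    have := h.bd i
    linarith
  have h3 : (‖x‖ / 2) ^ 4 ≤ ‖y‖ := le_y hy (by positivity) fun i => h1 _ (h.bd i)
  have h4 : ∀ t, ‖t‖ ≤ E → t - x ≠ 0 := fun t ht e => by
    have := h1 t ht
    rw [norm_sub_rev, e, norm_zero] at this
    linarith
  let q : Fin 3 → ℂ := ![y / x, y / x ^ 2, y / x ^ 3]
  let ρ : ℂ → ℂ := fun t => y / (t - x) + qv q t
  have hc : ContinuousOn (fun t => y / (t - x)) Γ :=
    continuousOn_const.div (by fun_prop) fun t ht => h4 t (h.rad t ht)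
  have hq : ContinuousOn (qv q) Γ := by
    unfold qv
    fun_prop
  have hρ : ∀ t, ‖t‖ ≤ E → ‖ρ t‖ ≤ 32 * E ^ 3 := fun t ht => by
    have e1 : ρ t = y * t ^ 3 / (x ^ 3 * (t - x)) := by
      have := h4 t ht
      simp only [ρ, qv, q, Fin.sum_univ_three]
      simp
      field_simp
      ring
    have k1 := h1 t ht
    rw [e1, norm_div, norm_mul, norm_mul, norm_pow, norm_pow, norm_sub_rev,
      div_le_iff₀ (mul_pos (pow_pos hx0 3) (by linarith))]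
    calc ‖y‖ * ‖t‖ ^ 3 ≤ (2 * ‖x‖) ^ 4 * E ^ 3 := by gcongr
      _ = 32 * E ^ 3 * (‖x‖ ^ 3 * (‖x‖ / 2)) := by ring
      _ ≤ _ := by gcongr
  have e2 : (fun t => y / (t - x) - qv (Λ fun s => y / (s - x)) t) =
      fun t => ρ t - qv (Λ ρ) t := by
    funext t
    simp only [ρ]
    rw [h.pr.add _ _ hc hq, h.pr.quad]
    simp only [qv, Pi.add_apply, add_mul, sum_add_distrib]
    ring
  rw [Bt, e2]
  refine (norm_add_le _ _).trans (add_le_add ?_ (sg_le h ev (red_le h (hc.add hq) hρ) j))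
  have hy0 : 0 < ‖y‖ := lt_of_lt_of_le (by positivity) h3
  rw [norm_div, norm_mul, ← mul_div_assoc, div_le_div_iff₀ hy0 (by positivity)]
  calc ‖xv‖ * ‖x ^ (j : ℕ)‖ * (1 + ‖x‖ ^ 2) ≤ ‖xv‖ * ‖x‖ ^ 2 * (‖x‖ ^ 2 + ‖x‖ ^ 2) := by
        have := pw_le hx1 le_rfl j
        have := one_le_pow₀ (n := 2) hx1
        gcongr
    _ = 32 * ‖xv‖ * (‖x‖ / 2) ^ 4 := by ring
    _ ≤ _ := by gcongr

theorem lag (h : Ok d E e Γ Λ) {x y : ℂ} (h0 : y ≠ 0) (hy : y ^ 2 = (fz e).eval x) (j : Fin 3) :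
    (∀ i, x - e i ≠ 0) ∧ x ^ (j : ℕ) / y = ∑ i, cw e j i * (y / (x - e i)) := by
  have h1 : ∀ i, x - e i ≠ 0 := fun i =>
    prod_ne_zero_iff.1 (ysq hy ▸ pow_ne_zero 2 h0) i (mem_univ i)
  refine ⟨h1, ?_⟩
  have hi : Set.InjOn e (univ : Finset (Fin 8)) := fun a _ b _ hab => by
    by_contra hne
    have := h.sep a b hne
    rw [hab, sub_self, norm_zero] at this
    exact this.not_gt h.d0
  have h2 := Lagrange.eq_interpolate (f := (X ^ (j : ℕ) : ℂ[X])) hi (by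
    rw [degree_X_pow, card_univ, Fintype.card_fin]
    exact_mod_cast j.2.trans (by norm_num))
  have h3 := congrArg (eval x) h2
  rw [Lagrange.eval_interpolate_not_at_node _ fun i _ => sub_ne_zero.1 (h1 i),
    Lagrange.eval_nodal, ← ysq hy, eval_pow, eval_X] at h3
  rw [h3, div_eq_iff h0, mul_sum, sum_mul]
  refine sum_congr rfl fun i _ => ?_
  rw [Lagrange.nodalWeight, prod_inv_distrib, cw, eval_pow, eval_X]
  ring

theorem near (h : Ok d E e Γ Λ) (ev : Fin 8 → ℂ) {x y xv yv : ℂ} {δ : ℝ} (hδ : 0 < δ)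
    (h0 : y ≠ 0) (hy : y ^ 2 = (fz e).eval x)
    (hv : 2 * y * yv = ∑ i, (xv - ev i) * ∏ i' ∈ univ.erase i, (x - e i'))
    (hu : ∀ u ∈ Γ, δ ≤ ‖u - x‖) (hx : ‖x‖ ≤ 2 * E) (j : Fin 3) :
    ‖y‖ ≤ (3 * E) ^ 4 ∧ ‖Bt Λ e ev x y xv j‖ ≤ 2 * (E ^ 2 / d ^ 7) * ‖yv‖ +
      8 * ((‖xv‖ + ‖ev‖) * (2 * (E ^ 2 / d ^ 7)) * ((3 * E) ^ 4 / (d / 2))) +
      8 * (3 * (E * ((3 * E) ^ 4 / δ) * E ^ 2)) * (E ^ 2 / d ^ 7) * ‖ev‖ := by
  have hE := h.E1
  have hd := h.d0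
  have h2 : ‖y‖ ≤ (3 * E) ^ 4 := y_le hy fun i => by
    have := norm_sub_le x (e i)
    have := h.bd i
    linarith
  refine ⟨h2, ?_⟩
  obtain ⟨h1, h3⟩ := lag h h0 hy j
  obtain ⟨k, hk⟩ : ∃ k, ∀ i, i ≠ k → d / 2 ≤ ‖x - e i‖ := by
    by_cases hk : ∃ k, ‖x - e k‖ < d / 2
    · obtain ⟨k, hk⟩ := hk
      refine ⟨k, fun i hi => ?_⟩
      have k1 := h.sep i k hi
      have k2 := norm_sub_le (x - e k) (x - e i)
      rw [show x - e k - (x - e i) = e i - e k by ring] at k2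
      linarith
    · exact ⟨0, fun i _ => not_lt.1 fun e => hk ⟨i, e⟩⟩
  have h4 : 2 * yv = ∑ i, (xv - ev i) * (y / (x - e i)) := by
    refine mul_left_cancel₀ h0 ?_
    rw [← mul_assoc, mul_comm y 2, hv, mul_sum]
    refine sum_congr rfl fun i _ => ?_
    have k1 := ysq hy
    rw [← mul_prod_erase univ _ (mem_univ i)] at k1
    have k2 := h1 i
    field_simp
    linear_combination (ev i - xv) * k1
  have e1 : Bt Λ e ev x y xv j = 2 * cw e j k * yv +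
      ∑ i, (xv - ev i) * (cw e j i - cw e j k) * (y / (x - e i)) +
      Sg e ev (fun t => -qv (Λ fun s => y / (s - x)) t) j := by
    rw [Bt, mul_div_assoc, h3, mul_right_comm, h4, sg_eq, sg_eq, mul_sum, sum_mul,
      ← sum_add_distrib, ← sum_add_distrib, ← sum_add_distrib]
    refine sum_congr rfl fun i _ => ?_
    rw [← neg_sub x (e i), div_neg]
    ring
  have hc : ContinuousOn (fun t => y / (t - x)) Γ :=
    continuousOn_const.div (by fun_prop) fun t ht => norm_pos_iff.1 (hδ.trans_le (hu t ht))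
  rw [e1]
  refine norm_add₃_le.trans (add_le_add (add_le_add ?_ (sum8 fun i => ?_))
    (sg_le h ev (fun i => ?_) j))
  · rw [norm_mul, norm_mul, Complex.norm_ofNat]
    have := cw_le h j k
    gcongr
  · by_cases hi : i = k
    · rw [hi, sub_self, mul_zero, zero_mul, norm_zero]
      positivity
    · rw [norm_mul, norm_mul, norm_div]
      have k1 : ‖xv - ev i‖ ≤ ‖xv‖ + ‖ev‖ :=
        (norm_sub_le _ _).trans (add_le_add le_rfl (norm_le_pi_norm ev i))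
      have k2 : ‖cw e j i - cw e j k‖ ≤ 2 * (E ^ 2 / d ^ 7) := by
        have := norm_sub_le (cw e j i) (cw e j k)
        have := cw_le h j i
        have := cw_le h j k
        linarith
      have k3 := hk i hi
      gcongr
  · rw [norm_neg]
    refine qv_le hE (h.bd i) (h.bdd _ _ hc (by positivity) fun t ht => ?_)
    rw [norm_div]
    have := hu t ht
    gcongr

end Estx

open Estx in
theorem est : StmtEST := by
  intro f0 Z rn e1 he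
  obtain ⟨d, hd, hsep⟩ : ∃ d : ℝ, 0 < d ∧ ∀ i i', i ≠ i' → 2 * d ≤ ‖e1 i - e1 i'‖ := by
    obtain ⟨q, hq, hm⟩ := exists_min_image (univ.filter fun q : Fin 8 × Fin 8 => q.1 ≠ q.2)
      (fun q => ‖e1 q.1 - e1 q.2‖) ⟨(0, 1), by simp⟩
    have := norm_pos_iff.2 (sub_ne_zero.2 (he.ne (mem_filter.1 hq).2))
    exact ⟨‖e1 q.1 - e1 q.2‖ / 2, by positivity, fun i i' h => by
      have := hm (i, i') (by simpa using h)
      linarith⟩
  have hK := rn.K0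
  have hδ := rn.δ0
  obtain ⟨E, hE⟩ : ∃ E : ℝ, E = ‖e1‖ + 1 + rn.K := ⟨_, rfl⟩
  have hn := norm_nonneg e1
  have hE1 : 1 ≤ E := by linarith
  obtain ⟨c, hc⟩ : ∃ c : ℝ, c = E ^ 2 / d ^ 7 := ⟨_, rfl⟩
  have hc0 : 0 < c := by rw [hc]; positivity
  obtain ⟨A, hA⟩ : ∃ A : ℝ, A = 8 * (E ^ 3 + 3 * (E * E ^ 3 * E ^ 2)) * c := ⟨_, rfl⟩
  obtain ⟨B, hB⟩ : ∃ B : ℝ, B = 8 * (2 * c * ((3 * E) ^ 4 / (d / 2))) := ⟨_, rfl⟩
  obtain ⟨D, hD⟩ : ∃ D : ℝ, D = 8 * (3 * (E * ((3 * E) ^ 4 / rn.δ) * E ^ 2)) * c := ⟨_, rfl⟩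
  obtain ⟨U, hU⟩ : ∃ U : ℝ, U = 2 * c * (1 + ((3 * E) ^ 4) ^ 2) := ⟨_, rfl⟩
  obtain ⟨V, hV⟩ : ∃ V : ℝ, V = B * (1 + (2 * E) ^ 2) := ⟨_, rfl⟩
  have hA0 : 0 < A := by rw [hA]; positivity
  have hB0 : 0 < B := by rw [hB]; positivity
  have hD0 : 0 < D := by rw [hD]; positivity
  have hU0 : 0 < U := by rw [hU]; positivity
  have hV0 : 0 < V := by rw [hV]; positivity
  refine ⟨min 1 (d / 2), 32 + 32 * A + B + D + U + V, by positivity, by positivity,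
    fun e ev s hes hcl => ?_⟩
  have hi : ∀ i, ‖e i - e1 i‖ < min 1 (d / 2) := fun i => (norm_le_pi_norm (e - e1) i).trans_lt hes
  have h : Ok d E e (rn.Γ s) (rn.Λ (fz e) s) :=
    { d0 := hd
      E1 := hE1
      sep := fun i i' hii => by
        have k1 := hsep i i' hii
        have k2 := (lt_min_iff.1 (hi i)).2
        have k3 := (lt_min_iff.1 (hi i')).2
        have k4 : ‖e i - e i' - (e i - e1 i) + (e i' - e1 i')‖ ≤ _ :=
          (norm_add_le _ _).trans (add_le_add (norm_sub_le _ _) le_rfl)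
        rw [show e i - e i' - (e i - e1 i) + (e i' - e1 i') = e1 i - e1 i' by ring] at k4
        linarith
      bd := fun i => by
        have k1 := (lt_min_iff.1 (hi i)).1
        have k2 := norm_le_pi_norm e1 i
        have k3 := norm_sub_norm_le (e i) (e1 i)
        linarith
      pr := rn.proj _ s hcl
      rad := fun x hx => (rn.rad s x hx).trans (by linarith)
      bdd := fun ρ M h1 h2 h3 => (rn.bdd _ s ρ M hcl h1 h2 h3).trans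
        (mul_le_mul_of_nonneg_right (by linarith) h2) }
  have hev := norm_nonneg ev
  refine ⟨(pi_norm_le_iff_of_nonneg (by positivity)).2 fun j => ?_,
    fun x y xv yv h0 hy hv hu => (pi_norm_le_iff_of_nonneg (by positivity)).2 fun j => ?_⟩
  · have := btI h ev j
    rw [← hc, ← hA] at this
    exact this.trans (mul_le_mul_of_nonneg_right (by linarith) hev)
  · obtain ⟨a, ha⟩ : ∃ a : ℝ, a = ‖xv‖ / (1 + ‖x‖ ^ 2) := ⟨_, rfl⟩
    obtain ⟨b, hb⟩ : ∃ b : ℝ, b = ‖yv‖ / (1 + ‖y‖ ^ 2) := ⟨_, rfl⟩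
    have ha0 : 0 ≤ a := by rw [ha]; positivity
    have hb0 : 0 ≤ b := by rw [hb]; positivity
    have key : ∀ p q r : ℝ, p ≤ 32 + 32 * A + B + D + U + V → q ≤ 32 + 32 * A + B + D + U + V →
        r ≤ 32 + 32 * A + B + D + U + V →
        p * a + q * b + r * ‖ev‖ ≤ (32 + 32 * A + B + D + U + V) * (a + b + ‖ev‖) :=
      fun p q r h1 h2 h3 => by
        rw [mul_add, mul_add]
        gcongr
    rw [← ha, ← hb]
    rcases le_or_gt ‖x‖ (2 * E) with hx | hx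
    · obtain ⟨h1, h2⟩ := near h ev hδ h0 hy hv hu hx j
      have k1 : ‖xv‖ ≤ (1 + (2 * E) ^ 2) * a := by
        rw [show ‖xv‖ = (1 + ‖x‖ ^ 2) * a by rw [ha]; field_simp]
        gcongr
      have k2 : ‖yv‖ ≤ (1 + ((3 * E) ^ 4) ^ 2) * b := by
        rw [show ‖yv‖ = (1 + ‖y‖ ^ 2) * b by rw [hb]; field_simp]
        gcongr
      refine h2.trans (le_trans ?_ (key V U (B + D) (by linarith) (by linarith) (by linarith)))
      have k3 := mul_le_mul_of_nonneg_left k1 hB0.le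
      have k4 := mul_le_mul_of_nonneg_left k2 (by positivity : 0 ≤ 2 * c)
      rw [← hc, ← hD, show 8 * ((‖xv‖ + ‖ev‖) * (2 * c) * ((3 * E) ^ 4 / (d / 2))) =
        B * ‖xv‖ + B * ‖ev‖ by rw [hB]; ring, hV, hU]
      linarith
    · refine (far h ev xv hy hx j).trans
        (le_trans (le_of_eq ?_) (key 32 0 (32 * A) (by linarith) (by linarith) (by linarith)))
      rw [← ha, ← hc, hA]
      ring

end Pool.Agent.MP_8d06cc_nt.AB
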