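import Pool.Agent.MP_8d06cc_nt.AB.Defs

/-! Fraction decomposition of the logarithmic derivative of `(A + B y) / (A - B y)`. -/

set_option autoImplicit false

namespace Pool.Agent.MP_8d06cc_nt.AB

open Polynomial Finset Lagrange

noncomputable section

namespace Brx

/-- a derivation over a ring map -/
structure DD {S : Type} [CommRing S] (φ : S →+* ℂ[X]) (D : S → ℂ[X]) : Prop where
  add : ∀ a b, D (a + b) = D a + D b
  mul : ∀ a b, D (a * b) = φ a * D b + φ b * D a

section der

variable {S : Type} [CommRing S] {φ : S →+* ℂ[X]} {D : S → ℂ[X]}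

theorem DD.one (h : DD φ D) : D 1 = 0 := by
  have e := h.mul 1 1
  rw [mul_one, map_one, one_mul] at e
  linear_combination -e

theorem DD.norm (h : DD φ D) (f A B N : S) (e : A ^ 2 - f * B ^ 2 = N) :
    D N = 2 * φ A * D A - D f * φ B ^ 2 - 2 * φ f * φ B * D B := by
  have e1 : A * A = N + f * (B * B) := by linear_combination e
  have e2 := congrArg D e1
  rw [h.add, h.mul, h.mul, h.mul, map_mul] at e2
  linear_combination -e2

theorem DD.ld_mul (h : DD φ D) {L s t : ℂ[X]} {a b : S} (ha : D a * L = φ a * s)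
    (hb : D b * L = φ b * t) : D (a * b) * L = φ (a * b) * (s + t) := by
  rw [h.mul, map_mul]
  linear_combination φ a * hb + φ b * ha

theorem DD.ld_pow (h : DD φ D) {L s : ℂ[X]} {a : S} (ha : D a * L = φ a * s) (m : ℕ) :
    D (a ^ m) * L = φ (a ^ m) * (m * s) := by
  induction m with
  | zero => simp [h.one]
  | succ m ih =>
    rw [pow_succ, h.ld_mul ih ha]
    push_cast
    ring

theorem DD.ld_prod (h : DD φ D) {ι : Type} {L : ℂ[X]} {s : ι → ℂ[X]} {a : ι → S}
    (ha : ∀ p, D (a p) * L = φ (a p) * s p) (t : Finset ι) :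
    D (∏ p ∈ t, a p) * L = φ (∏ p ∈ t, a p) * ∑ p ∈ t, s p := by
  classical
  induction t using Finset.induction_on with
  | empty => simp [h.one]
  | insert p t hp ih => rw [prod_insert hp, sum_insert hp, h.ld_mul (ha p) ih]

end der

variable {ι : Type} [Fintype ι] [DecidableEq ι]

/-- the numerator of a sum of simple fractions -/
def UU (x w : ι → ℂ) : ℂ[X] := ∑ p, C (w p) * nodal (univ.erase p) x

theorem UU_node (x w : ι → ℂ) (p : ι) :
    (UU x w).eval (x p) = w p * (nodal (univ.erase p) x).eval (x p) := by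
  rw [UU, eval_finsetSum, sum_eq_single p]
  · rw [eval_mul, eval_C]
  · intro q _ hq
    rw [eval_mul, eval_nodal_at_node (mem_erase.2 ⟨hq.symm, mem_univ _⟩), mul_zero]
  · exact fun h => absurd (mem_univ p) h

theorem UU_eval (x w : ι → ℂ) {t : ℂ} (ht : ∀ p, t ≠ x p) :
    (UU x w).eval t = (nodal univ x).eval t * ∑ p, w p / (t - x p) := by
  rw [UU, eval_finsetSum, mul_sum]
  refine sum_congr rfl fun p _ => ?_
  have h := sub_ne_zero.2 (ht p)
  rw [nodal_eq_mul_nodal_erase (mem_univ p), eval_mul, eval_mul, eval_C, eval_sub, eval_X, eval_C]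
  field_simp

theorem X_nodal (x : ι → ℂ) (p : ι) : (X * nodal (univ.erase p) x).Monic ∧
    (X * nodal (univ.erase p) x).natDegree = Fintype.card ι := by
  refine ⟨monic_X.mul nodal_monic, ?_⟩
  rw [monic_X.natDegree_mul nodal_monic, natDegree_X, natDegree_nodal, add_comm,
    card_erase_add_one (mem_univ p), card_univ]

theorem X_UU (x w : ι → ℂ) : (X * UU x w).natDegree ≤ Fintype.card ι ∧
    (X * UU x w).coeff (Fintype.card ι) = ∑ p, w p := by
  have e : X * UU x w = ∑ p, C (w p) * (X * nodal (univ.erase p) x) := by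
    rw [UU, mul_sum]
    exact sum_congr rfl fun p _ => by ring
  rw [e]
  refine ⟨natDegree_sum_le_of_forall_le _ _ fun p _ =>
    (natDegree_C_mul_le _ _).trans (X_nodal x p).2.le, ?_⟩
  rw [finsetSum_coeff]
  refine sum_congr rfl fun p _ => ?_
  rw [coeff_C_mul, ← (X_nodal x p).2, (X_nodal x p).1.coeff_natDegree, mul_one]

theorem UU_deg (x w : ι → ℂ) : (UU x w).natDegree ≤ Fintype.card ι :=
  natDegree_sum_le_of_forall_le _ _ fun p _ => (natDegree_C_mul_le _ _).trans (by
    rw [natDegree_nodal, ← card_univ]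
    exact card_erase_le)

theorem quo_deg (x w : ι → ℂ) (r : ℂ[X]) (d : ℕ)
    (h : (nodal univ x * r + UU x w).natDegree ≤ Fintype.card ι + d) : r.natDegree ≤ d := by
  rcases eq_or_ne r 0 with rfl | hr
  · simp
  have h1 : (nodal univ x * r).natDegree ≤ Fintype.card ι + d := by
    have e : nodal univ x * r = (nodal univ x * r + UU x w) - UU x w := by ring
    rw [e]
    exact (natDegree_sub_le _ _).trans (max_le h ((UU_deg x w).trans (Nat.le_add_right _ _)))
  rw [nodal_monic.natDegree_mul' hr, natDegree_nodal, card_univ] at h1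
  omega

theorem quo_coeff (x w : ι → ℂ) (r : ℂ[X]) (d : ℕ) (h : r.natDegree ≤ d + 1) :
    (nodal univ x * r + UU x w).coeff (Fintype.card ι + (d + 1)) = r.coeff (d + 1) := by
  have e : (nodal univ x).natDegree = Fintype.card ι := by rw [natDegree_nodal, card_univ]
  rw [coeff_add, coeff_mul_add_eq_of_natDegree_le e.le h,
    coeff_eq_zero_of_natDegree_lt (p := UU x w) ((UU_deg x w).trans_lt (by omega)), add_zero, ← e,
    nodal_monic.coeff_natDegree, one_mul]

/-- the decomposition -/
theorem pf {x y u : ι → ℂ} {n : ι → ℤ} {κ : ℂ} {f A B fd Ad Bd N : ℂ[X]}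
    (hx : Function.Injective x) (hc : IsCoprime A B) (hN : A ^ 2 - f * B ^ 2 = N) (hN0 : N ≠ 0)
    (hy : ∀ p, y p ^ 2 = f.eval (x p))
    (hpos : ∀ p, 0 < n p → A.eval (x p) + B.eval (x p) * y p = 0)
    (hneg : ∀ p, n p < 0 → A.eval (x p) - B.eval (x p) * y p = 0)
    (hd : (2 * A * Ad - fd * B ^ 2 - 2 * f * B * Bd) * nodal univ x =
      N * (C κ * nodal univ x + UU x fun p => (n p).natAbs * u p)) :
    ∃ r, (2 * f * (A * Bd - Ad * B) + fd * A * B) * nodal univ x =
        N * (nodal univ x * r + UU x fun p => n p * y p * u p) ∧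
      B * (nodal univ x * r + UU x fun p => n p * y p * u p) +
        A * (C κ * nodal univ x + UU x fun p => (n p).natAbs * u p) = 2 * Ad * nodal univ x := by
  obtain ⟨a, b, hab⟩ := hc
  generalize hS : (C κ * nodal univ x + UU x fun p => (n p).natAbs * u p) = S at hd
  generalize hL : nodal univ x = L at hd hS
  obtain ⟨T, hT⟩ : ∃ T, T = a * ((2 * f * Bd + fd * B) * L - f * B * S) +
    b * (2 * Ad * L - A * S) := ⟨_, rfl⟩
  have h1 : (2 * f * (A * Bd - Ad * B) + fd * A * B) * L = N * T := by
    rw [hT, ← hN] at *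
    linear_combination -((2 * f * (A * Bd - Ad * B) + fd * A * B) * L) * hab -
      (a * f * B + b * A) * hd
  have h2 : B * T + A * S = 2 * Ad * L := by
    refine mul_left_cancel₀ hN0 ?_
    rw [← hN] at *
    linear_combination -B * h1 - A * hd
  have h3 : A * T + f * B * S = (2 * f * Bd + fd * B) * L := by
    refine mul_left_cancel₀ hN0 ?_
    rw [← hN] at *
    linear_combination -A * h1 - f * B * hd
  have h4 : L ∣ T - UU x fun p => n p * y p * u p := by
    rw [← hL, nodal]
    refine prod_dvd_of_coprime ((pairwise_coprime_X_sub_C hx).set_pairwise _) fun p _ => ?_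
    rw [dvd_iff_isRoot, IsRoot.def, eval_sub, UU_node]
    have eL : L.eval (x p) = 0 := hL ▸ eval_nodal_at_node (mem_univ p)
    have eS : S.eval (x p) = (n p).natAbs * u p * (nodal (univ.erase p) x).eval (x p) := by
      rw [← hS, eval_add, eval_mul, eL, mul_zero, zero_add, UU_node]
    have e1 := congrArg (eval (x p)) hab
    have e2 := congrArg (eval (x p)) h2
    have e3 := congrArg (eval (x p)) h3
    simp only [eval_add, eval_mul, eval_one, eL, mul_zero, eS, ← hy p] at e1 e2 e3
    generalize (nodal (univ.erase p) x).eval (x p) = z at *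
    generalize T.eval (x p) = t at *
    rcases lt_trichotomy (n p) 0 with h | h | h
    · have e4 := hneg p h
      have e5 : (((n p).natAbs : ℕ) : ℂ) = -(n p : ℂ) := by
        rw [← Int.cast_natCast, Int.natCast_natAbs, abs_of_neg h, Int.cast_neg]
      rw [e5] at e2 e3
      linear_combination -(t - n p * y p * u p * z) * e1 + b.eval (x p) * e2 +
        a.eval (x p) * e3 + (n p * u p * z) * (b.eval (x p) - a.eval (x p) * y p) * e4
    · rw [h] at e2 e3 ⊢
      simp only [Int.natAbs_zero, Nat.cast_zero, zero_mul, mul_zero, add_zero, Int.cast_zero,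
        sub_zero] at e2 e3 ⊢
      linear_combination -t * e1 + b.eval (x p) * e2 + a.eval (x p) * e3
    · have e4 := hpos p h
      have e5 : (((n p).natAbs : ℕ) : ℂ) = (n p : ℂ) := by
        rw [← Int.cast_natCast, Int.natCast_natAbs, abs_of_pos h]
      rw [e5] at e2 e3
      linear_combination -(t - n p * y p * u p * z) * e1 + b.eval (x p) * e2 +
        a.eval (x p) * e3 - (n p * u p * z) * (b.eval (x p) + a.eval (x p) * y p) * e4
  obtain ⟨r, hr⟩ := h4
  have e : (L * r + UU x fun p => n p * y p * u p) = T := by linear_combination -hr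
  exact ⟨r, by rw [e, h1], by rw [e, h2]⟩

theorem X_der (p : ℂ[X]) (k : ℕ) : (X * derivative p).coeff k = k * p.coeff k := by
  cases k with
  | zero => simp
  | succ k =>
    rw [coeff_X_mul, coeff_derivative]
    push_cast
    ring

theorem X_der_deg {p : ℂ[X]} {k : ℕ} (h : p.natDegree ≤ k) : (X * derivative p).natDegree ≤ k :=
  natDegree_le_iff_coeff_eq_zero.2 fun m hm => by
    rw [X_der, coeff_eq_zero_of_natDegree_lt (h.trans_lt hm), mul_zero]

theorem two_mul_deg {p : ℂ[X]} {k : ℕ} (h : p.natDegree ≤ k) : (2 * p).natDegree ≤ k :=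
  (natDegree_C_mul_le (2 : ℂ) p).trans h

/-- degree of the numerator for any derivation -/
theorem W_deg {f A B fd Ad Bd : ℂ[X]} {M : ℕ} (hf : f.natDegree ≤ 8) (hfd : fd.natDegree ≤ 8)
    (hA : A.natDegree ≤ M + 4) (hAd : Ad.natDegree ≤ M + 4) (hB : B.natDegree ≤ M)
    (hBd : Bd.natDegree ≤ M) :
    (2 * f * (A * Bd - Ad * B) + fd * A * B).natDegree ≤ 8 + (M + 4 + M) := by
  refine (natDegree_add_le _ _).trans (max_le ?_ ?_)
  · exact natDegree_mul_le_of_le (two_mul_deg hf) ((natDegree_sub_le _ _).trans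
      (max_le (natDegree_mul_le_of_le hA hBd) (natDegree_mul_le_of_le hAd hB)))
  · rw [mul_assoc]
    exact natDegree_mul_le_of_le hfd (natDegree_mul_le_of_le hA hB)

/-- degree of the numerator for the ordinary derivative -/
theorem W_deg' {f A B : ℂ[X]} {M : ℕ} (hf : f.natDegree ≤ 8) (hA : A.natDegree ≤ M + 4)
    (hB : B.natDegree ≤ M) :
    (2 * f * (A * derivative B - derivative A * B) + derivative f * A * B).natDegree
      ≤ 2 * (M + 4) + 2 := by
  have h1 := W_deg hf (X_der_deg hf) hA (X_der_deg hA) hB (X_der_deg hB)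
  have h2 : (2 * f * (A * (X * derivative B) - X * derivative A * B) +
      X * derivative f * A * B).coeff (8 + (M + 4 + M)) = 0 := by
    rw [coeff_add, mul_assoc (X * derivative f),
      coeff_mul_add_eq_of_natDegree_le (two_mul_deg hf) ((natDegree_sub_le _ _).trans
      (max_le (natDegree_mul_le_of_le hA (X_der_deg hB))
        (natDegree_mul_le_of_le (X_der_deg hA) hB))),
      coeff_mul_add_eq_of_natDegree_le (X_der_deg hf) (natDegree_mul_le_of_le hA hB), coeff_sub,
      coeff_mul_add_eq_of_natDegree_le hA (X_der_deg hB),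
      coeff_mul_add_eq_of_natDegree_le (X_der_deg hA) hB,
      coeff_mul_add_eq_of_natDegree_le hA hB, X_der, X_der, X_der, two_mul, coeff_add]
    push_cast
    ring
  have e : 2 * f * (A * (X * derivative B) - X * derivative A * B) + X * derivative f * A * B =
      X * (2 * f * (A * derivative B - derivative A * B) + derivative f * A * B) := by ring
  rw [e] at h1 h2
  refine natDegree_le_iff_coeff_eq_zero.2 fun m hm => ?_
  rw [← coeff_X_mul]
  rcases eq_or_lt_of_le (show 8 + (M + 4 + M) ≤ m + 1 by omega) with h | h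
  · rw [← h, h2]
  · exact coeff_eq_zero_of_natDegree_lt (h1.trans_lt h)

/-- cancel a factor of known degree -/
theorem canc_deg {N T W : ℂ[X]} {a k : ℕ} (hN : N ≠ 0) (ha : N.natDegree = a) (h : W = N * T)
    (hW : W.natDegree ≤ a + k) : T.natDegree ≤ k := by
  rcases eq_or_ne T 0 with rfl | hT
  · simp
  rw [h, natDegree_mul hN hT, ha] at hW
  omega

end Brx

end

end Pool.Agent.MP_8d06cc_nt.AB
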