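import Pool.Agent.MP_8d06cc_nt.H9.BrelA

/-! The two decompositions attached to a certificate. -/

set_option autoImplicit false

namespace Pool.Agent.MP_8d06cc_nt.AB

open Polynomial Finset Lagrange
open DA (WW)

noncomputable section

namespace Brx

variable {R : Type} [CommRing R]

/-- the derivation as an additive map -/
def dtH (J : Jet R) : R →+ ℂ := AddMonoidHom.mk' J.dt J.add

theorem dt_zero (J : Jet R) : J.dt 0 = 0 := (dtH J).map_zero

theorem dt_one (J : Jet R) : J.dt 1 = 0 := by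
  have e := J.mul 1 1
  rw [mul_one, map_one, one_mul] at e
  linear_combination -e

/-- the derivation on coefficients -/
def dP (J : Jet R) (p : R[X]) : ℂ[X] := ∑ k ∈ p.support, monomial k (J.dt (p.coeff k))

theorem dP_coeff (J : Jet R) (p : R[X]) (k : ℕ) : (dP J p).coeff k = J.dt (p.coeff k) := by
  rw [dP, finsetSum_coeff, sum_eq_single k]
  · rw [coeff_monomial_same]
  · intro m _ hm
    rw [coeff_monomial_of_ne _ hm.symm]
  · intro h
    rw [notMem_support_iff.1 h, dt_zero, monomial_zero_right, coeff_zero]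

theorem dP_DD (J : Jet R) : DD (mapRingHom J.ev) (dP J) := by
  refine ⟨fun a b => ?_, fun a b => ?_⟩
  · ext k
    rw [coeff_add, dP_coeff, dP_coeff, dP_coeff, coeff_add, J.add]
  · ext k
    rw [mul_comm (mapRingHom J.ev b), coeff_add, dP_coeff, coeff_mul, coeff_mul, coeff_mul,
      ← sum_add_distrib]
    refine (map_sum (dtH J) _ _).trans (sum_congr rfl fun p _ => ?_)
    rw [dP_coeff, dP_coeff, coe_mapRingHom, coeff_map, coeff_map, mul_comm (J.dt _)]
    exact J.mul _ _

theorem der_DD (ev : R →+* ℂ) : DD (mapRingHom ev) fun p => derivative (p.map ev) := by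
  refine ⟨fun a b => ?_, fun a b => ?_⟩
  · rw [Polynomial.map_add, derivative_add]
  · rw [Polynomial.map_mul, derivative_mul, coe_mapRingHom]
    ring

theorem dP_C (J : Jet R) (a : R) : dP J (C a) = C (J.dt a) := by
  ext k
  rw [dP_coeff, coeff_C, coeff_C]
  split_ifs
  · rfl
  · exact dt_zero J

theorem dP_lin (J : Jet R) (a : R) : dP J (X - C a) = C (-J.dt a) := by
  have e1 : dP J X = 0 := by
    ext k
    rw [dP_coeff, coeff_X, coeff_zero]
    split_ifs
    · exact dt_one J
    · exact dt_zero J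
  have e2 := (dP_DD J).add (X - C a) (C a)
  rw [sub_add_cancel, e1, dP_C] at e2
  rw [C_neg]
  linear_combination -e2

theorem dP_deg (J : Jet R) {p : R[X]} {k : ℕ} (h : p.natDegree ≤ k) : (dP J p).natDegree ≤ k :=
  natDegree_le_iff_coeff_eq_zero.2 fun m hm => by
    rw [dP_coeff, coeff_eq_zero_of_natDegree_lt (h.trans_lt hm), dt_zero]

theorem fz_map (ev : R →+* ℂ) (e : Fin 8 → R) : (fz e).map ev = fz fun i => ev (e i) := by
  simp [fz, Polynomial.map_prod]

theorem fz_deg (e : Fin 8 → R) : (fz e).natDegree ≤ 8 := by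
  refine (natDegree_prod_le _ _).trans ((sum_le_sum fun i _ => natDegree_X_sub_C_le _).trans ?_)
  simp

theorem fz_der {ev : R →+* ℂ} {D : R[X] → ℂ[X]} (hD : DD (mapRingHom ev) D) (e : Fin 8 → R)
    (i : Fin 8) {u : ℂ} (hu : D (X - C (e i)) = C u) : (D (fz e)).eval (ev (e i)) =
      u * ((∏ i' ∈ univ.erase i, (X - C (e i'))).map ev).eval (ev (e i)) := by
  rw [fz, ← mul_prod_erase _ _ (mem_univ i), hD.mul, hu, eval_add, eval_mul, eval_mul, eval_C,
    coe_mapRingHom, Polynomial.map_sub, map_X, map_C, eval_sub, eval_X, eval_C, sub_self, zero_mul,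
    zero_add, mul_comm]

variable {ι : Type} [Fintype ι] [DecidableEq ι]

/-- the norm at the complex point -/
def NN (c : ℂ) (x : ι → ℂ) (n : ι → ℤ) : ℂ[X] := C c * ∏ p, (X - C (x p)) ^ (n p).natAbs

omit [DecidableEq ι] in
theorem NN_eval {c : ℂ} (hc : c ≠ 0) {x : ι → ℂ} (n : ι → ℤ) {t : ℂ} (ht : ∀ p, t ≠ x p) :
    (NN c x n).eval t ≠ 0 := by
  simp only [NN, eval_mul, eval_C, eval_prod, eval_pow, eval_sub, eval_X]
  exact mul_ne_zero hc (prod_ne_zero_iff.2 fun p _ => pow_ne_zero _ (sub_ne_zero.2 (ht p)))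

omit [DecidableEq ι] in
theorem NN_deg {c : ℂ} (hc : c ≠ 0) (x : ι → ℂ) (n : ι → ℤ) :
    NN c x n ≠ 0 ∧ (NN c x n).natDegree = ∑ p, (n p).natAbs := by
  have hm : ∀ p ∈ (univ : Finset ι), ((X - C (x p)) ^ (n p).natAbs).Monic :=
    fun p _ => (monic_X_sub_C _).pow _
  refine ⟨mul_ne_zero (C_ne_zero.2 hc) (monic_prod_of_monic _ _ hm).ne_zero, ?_⟩
  rw [NN, natDegree_C_mul hc, natDegree_prod_of_monic _ _ hm]
  simp

omit [DecidableEq ι] in
theorem NN_map (ev : R →+* ℂ) (c : R) (x : ι → R) (n : ι → ℤ) :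
    (C c * ∏ p, (X - C (x p)) ^ (n p).natAbs).map ev = NN (ev c) (fun p => ev (x p)) n := by
  simp [NN, Polynomial.map_prod]

omit [DecidableEq ι] in
theorem norm_map (ev : R →+* ℂ) {f A B : R[X]} {c : R} {x : ι → R} {n : ι → ℤ}
    (hN : A ^ 2 - f * B ^ 2 = C c * ∏ p, (X - C (x p)) ^ (n p).natAbs) :
    A.map ev ^ 2 - f.map ev * B.map ev ^ 2 = NN (ev c) (fun p => ev (x p)) n := by
  rw [← NN_map, ← hN]
  simp

omit [Fintype ι] [DecidableEq ι] in
theorem pts_inj (ev : R →+* ℂ) {x : ι → R} (h : ∀ p q, p ≠ q → IsUnit (x p - x q)) :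
    Function.Injective fun p => ev (x p) := fun p q hpq => by
  by_contra hne
  have := ((h p q hne).map ev).ne_zero
  rw [map_sub] at this
  exact this (sub_eq_zero.2 hpq)

theorem core {ev : R →+* ℂ} {D : R[X] → ℂ[X]} (hD : DD (mapRingHom ev) D) {e : Fin 8 → R}
    {x y : ι → R} {n : ι → ℤ} (hp : Pts e x y) {A B : R[X]} {c : R} (hc : IsCoprime A B)
    (hu : IsUnit c) (hN : A ^ 2 - fz e * B ^ 2 = C c * ∏ p, (X - C (x p)) ^ (n p).natAbs)
    (hpos : ∀ p, 0 < n p → A.eval (x p) + B.eval (x p) * y p = 0)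
    (hneg : ∀ p, n p < 0 → A.eval (x p) - B.eval (x p) * y p = 0) {u : ι → ℂ} {κ : ℂ}
    (hx : ∀ p, D (X - C (x p)) = C (u p)) (hκ : D (C c) = C (ev c * κ)) :
    ∃ r, (2 * (fz e).map ev * (A.map ev * D B - D A * B.map ev) +
        D (fz e) * A.map ev * B.map ev) * nodal univ (fun p => ev (x p)) =
        NN (ev c) (fun p => ev (x p)) n * (nodal univ (fun p => ev (x p)) * r +
          UU (fun p => ev (x p)) fun p => n p * ev (y p) * u p) ∧
      B.map ev * (nodal univ (fun p => ev (x p)) * r +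
          UU (fun p => ev (x p)) fun p => n p * ev (y p) * u p) +
        A.map ev * (C κ * nodal univ (fun p => ev (x p)) +
          UU (fun p => ev (x p)) fun p => (n p).natAbs * u p) =
        2 * D A * nodal univ (fun p => ev (x p)) := by
  refine pf (y := fun p => ev (y p)) (pts_inj ev hp.dx) (hc.map (mapRingHom ev)) (norm_map ev hN)
    (NN_deg (hu.map ev).ne_zero _ _).1 (fun p => ?_) (fun p h => ?_) (fun p h => ?_) ?_
  · rw [eval_map_apply, ← hp.eqn, map_pow]
  · rw [eval_map_apply, eval_map_apply, ← map_mul, ← map_add, hpos p h, map_zero]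
  · rw [eval_map_apply, eval_map_apply, ← map_mul, ← map_sub, hneg p h, map_zero]
  · have e1 := hD.norm _ _ _ _ hN
    have e2 : D (C c) * nodal univ (fun p => ev (x p)) =
        mapRingHom ev (C c) * (C κ * nodal univ fun p => ev (x p)) := by
      rw [hκ, coe_mapRingHom, map_C, C_mul, mul_assoc]
    have e3 : ∀ p, D (X - C (x p)) * nodal univ (fun p => ev (x p)) =
        mapRingHom ev (X - C (x p)) * (C (u p) * nodal (univ.erase p) fun p => ev (x p)) := by
      intro p
      rw [hx, nodal_eq_mul_nodal_erase (mem_univ p), coe_mapRingHom, Polynomial.map_sub, map_X,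
        map_C]
      ring
    have e4 := hD.ld_mul e2 (hD.ld_prod (fun p => hD.ld_pow (e3 p) (n p).natAbs) univ)
    rw [e1, coe_mapRingHom, NN_map] at e4
    rw [e4, UU]
    refine congrArg _ (congrArg _ (sum_congr rfl fun p _ => ?_))
    rw [C_mul, map_natCast, mul_assoc]

theorem ratio {W r : ℂ[X]} {c : ℂ} (hc : c ≠ 0) {x w : ι → ℂ} {n : ι → ℤ}
    (h : W * nodal univ x = NN c x n * (nodal univ x * r + UU x w)) {t : ℂ} (ht : ∀ p, t ≠ x p) :
    W.eval t / (NN c x n).eval t = r.eval t + ∑ p, w p / (t - x p) := by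
  have e := congrArg (eval t) h
  rw [eval_mul, eval_mul, eval_add, eval_mul, UU_eval _ _ ht] at e
  rw [div_eq_iff (NN_eval hc n ht)]
  refine mul_left_cancel₀ (eval_nodal_not_at_node (s := univ) fun p _ => ht p) ?_
  linear_combination e

/-- degree of the polynomial part when the norm has full degree -/
theorem deg1 {W r : ℂ[X]} {c : ℂ} (hc : c ≠ 0) {x w : ι → ℂ} {n : ι → ℤ} {a d : ℕ}
    (h : W * nodal univ x = NN c x n * (nodal univ x * r + UU x w))
    (ha : ∑ p, (n p).natAbs = a) (hW : W.natDegree ≤ a + d) : r.natDegree ≤ d := by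
  refine quo_deg x w r d (canc_deg (NN_deg hc x n).1 ((NN_deg hc x n).2.trans ha) h ?_)
  refine (natDegree_mul_le_of_le hW (natDegree_nodal.trans card_univ).le).trans ?_
  omega

/-- degree of the polynomial part when `B` has full degree -/
theorem deg2 {A B Ad r : ℂ[X]} {κ : ℂ} {x w v : ι → ℂ} {M : ℕ}
    (h : B * (nodal univ x * r + UU x w) + A * (C κ * nodal univ x + UU x v) =
      2 * Ad * nodal univ x) (hA : A.natDegree ≤ M + 4) (hAd : Ad.natDegree ≤ M + 4)
    (hB : B.natDegree ≤ M) (hb : B.coeff M ≠ 0) : r.natDegree ≤ 4 := by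
  have hl : (nodal univ x).natDegree ≤ Fintype.card ι := (natDegree_nodal.trans card_univ).le
  refine quo_deg x w r 4 (canc_deg (fun h0 => hb (by rw [h0, coeff_zero]))
    (natDegree_eq_of_le_of_coeff_ne_zero hB hb) (eq_sub_of_add_eq h).symm ?_)
  refine (natDegree_sub_le _ _).trans (max_le ?_ ?_)
  · exact (natDegree_mul_le_of_le (two_mul_deg hAd) hl).trans (by omega)
  · exact (natDegree_mul_le_of_le hA ((natDegree_add_le _ _).trans
      (max_le ((natDegree_C_mul_le _ _).trans hl) (UU_deg _ _)))).trans (by omega)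

/-- the cubic coefficient of the polynomial part -/
theorem deg3 {A B r : ℂ[X]} {x w v : ι → ℂ} {M : ℕ}
    (h : B * (nodal univ x * r + UU x w) + A * (C 0 * nodal univ x + UU x v) =
      2 * derivative A * nodal univ x) (hA : A.natDegree ≤ M + 4)
    (hB : B.natDegree ≤ M) (hb : B.coeff M ≠ 0) : r.natDegree ≤ 3 ∧
      B.coeff M * r.coeff 3 = A.coeff (M + 4) * (2 * (M + 4 : ℕ) - ∑ p, v p) := by
  have hl : (nodal univ x).natDegree = Fintype.card ι := natDegree_nodal.trans card_univ
  generalize hT : nodal univ x * r + UU x w = T at h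
  have e : 2 * (X * derivative A) * nodal univ x - A * (X * UU x v) = B * (X * T) := by
    rw [C_0] at h
    linear_combination -X * h
  have h1 : (X * T).natDegree ≤ Fintype.card ι + 4 := by
    refine canc_deg (fun h0 => hb (by rw [h0, coeff_zero]))
      (natDegree_eq_of_le_of_coeff_ne_zero hB hb) e ?_
    refine (natDegree_sub_le _ _).trans (max_le ?_ ?_)
    · exact (natDegree_mul_le_of_le (two_mul_deg (X_der_deg hA)) hl.le).trans (by omega)
    · exact (natDegree_mul_le_of_le hA (X_UU x v).1).trans (by omega)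
  have h2 : T.natDegree ≤ Fintype.card ι + 3 := natDegree_le_iff_coeff_eq_zero.2 fun m hm => by
    rw [← coeff_X_mul]
    exact coeff_eq_zero_of_natDegree_lt (h1.trans_lt (by omega))
  have h3 : r.natDegree ≤ 3 := quo_deg x w r 3 (hT ▸ h2)
  refine ⟨h3, ?_⟩
  have e1 := coeff_mul_add_eq_of_natDegree_le hB h1
  have e2 := coeff_mul_add_eq_of_natDegree_le (two_mul_deg (X_der_deg hA)) hl.le
  have e3 := coeff_mul_add_eq_of_natDegree_le hA (X_UU x v).1
  have e4 : (nodal univ x).coeff (Fintype.card ι) = 1 := hl ▸ nodal_monic.coeff_natDegree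
  have e5 : M + (Fintype.card ι + 4) = M + 4 + Fintype.card ι := by omega
  have e6 : (X * T).coeff (Fintype.card ι + 4) = r.coeff 3 := by
    rw [← quo_coeff x w r 2 h3, hT]
    exact coeff_X_mul T (Fintype.card ι + 3)
  rw [← e, e5, coeff_sub, e2, e3, e4, e6, (X_UU x v).2, two_mul, coeff_add, X_der] at e1
  linear_combination -e1

end Brx

end

end Pool.Agent.MP_8d06cc_nt.AB
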